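import Mathlib
import Pool.Agent.H964R2.Core.Main

/-!
# Degree one elements in section rings of quotients of weighted complete intersections

Let `R = ℂ[x_1, ..., x_n] / (f_1, ..., f_c)`, where `x_i` has weight `w i > 0` and `f_j` is weighted
homogeneous of degree `δ j ≥ 2`. Let a finite group `G` act linearly on the variables, preserving
the weights and the span of the `f_j` of each given degree, and let `S = R^G`. Assume that `O(1)` is
invertible on `Proj S`: at every point `v ≠ 0` of `Spec R` there are elements of `S` of two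
consecutive degrees which do not vanish at `v` (this holds if `S` is the section ring of an ample
invertible sheaf). Then `dim S_1 ≥ ∑ w i - ∑ δ j`.

If the `f_j` form a regular sequence then `∑ w i - ∑ δ j = - a(R)`, where `a(R)` is the
`a`-invariant.
-/

namespace Pool.Agent.Results.MP_954e53_ag.DegreeOneInvariants

open MvPolynomial Pool.Agent.H964R2.Core

theorem result {n c : ℕ} (w : Fin n → ℕ) (hw : ∀ i, 0 < w i)
    (f : Fin c → MvPolynomial (Fin n) ℂ) (δ : Fin c → ℕ) (hδ : ∀ j, 2 ≤ δ j)
    (hf : ∀ j, IsWeightedHomogeneous w (f j) (δ j))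
    (G : Type) [Group G] [Finite G]
    (φ : G →* (MvPolynomial (Fin n) ℂ ≃ₐ[ℂ] MvPolynomial (Fin n) ℂ))
    (hφX : ∀ g i, φ g (X i) ∈
      Submodule.span ℂ ((X : Fin n → MvPolynomial (Fin n) ℂ) '' {k | w k = w i}))
    (hφf : ∀ g j, φ g (f j) ∈ Submodule.span ℂ (f '' {l | δ l = δ j}))
    (hL : ∀ v : Fin n → ℂ, v ≠ 0 → (∀ j, eval v (f j) = 0) → ∃ (d : ℕ)
      (a b : MvPolynomial (Fin n) ℂ), IsWeightedHomogeneous w a d ∧
      IsWeightedHomogeneous w b (d + 1) ∧
      (∀ g, φ g a - a ∈ Ideal.span (Set.range f)) ∧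
      (∀ g, φ g b - b ∈ Ideal.span (Set.range f)) ∧ eval v a ≠ 0 ∧ eval v b ≠ 0) :
    (∑ i, (w i : ℤ)) - ∑ j, (δ j : ℤ) ≤ Module.finrank ℂ (invPart w f φ 1) := by
  classical
  have _ := Fintype.ofFinite G
  set U : Submodule ℂ (MvPolynomial (Fin n) ℂ) :=
    Submodule.span ℂ ((X : Fin n → MvPolynomial (Fin n) ℂ) '' {i | w i = 1}) with hU
  have hUfin : FiniteDimensional ℂ U := FiniteDimensional.span_of_finite ℂ (Set.toFinite _)
  have hUhom : ∀ u ∈ U, IsWeightedHomogeneous w u 1 := by
    intro u hu
    have h1 : U ≤ weightedHomogeneousSubmodule ℂ w 1 := by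
      apply Submodule.span_le.mpr
      rintro _ ⟨i, hi, rfl⟩
      rw [SetLike.mem_coe, mem_weightedHomogeneousSubmodule]
      have := isWeightedHomogeneous_X ℂ w i
      rw [show w i = 1 from hi] at this
      exact this
    exact (mem_weightedHomogeneousSubmodule _ _ _ _).mp (h1 hu)
  have hUG : ∀ g, ∀ u ∈ U, (φ g).toLinearMap u ∈ U := by
    intro g u hu
    refine Submodule.span_induction (p := fun u _ => (φ g).toLinearMap u ∈ U) ?_ ?_ ?_ ?_ hu
    · rintro _ ⟨i, hi, rfl⟩
      have := hφX g i
      rw [show w i = 1 from hi] at this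
      exact this
    · rw [map_zero]; exact Submodule.zero_mem _
    · intro a b _ _ ha hb
      rw [map_add]; exact Submodule.add_mem _ ha hb
    · intro c a _ ha
      rw [map_smul]; exact Submodule.smul_mem _ _ ha
  let ρ : Representation ℂ G U :=
    { toFun := fun g => (φ g).toLinearMap.restrict (hUG g)
      map_one' := by
        ext u
        simp
      map_mul' := by
        intro g h
        ext u
        simp }
  have hρ : ∀ g (u : U), ((ρ g u : U) : MvPolynomial (Fin n) ℂ) = φ g u := fun g u => rfl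
  -- the inequality for every element
  have htr : ∀ g, (((∑ i, (w i : ℤ)) - ∑ j, (δ j : ℤ) : ℤ) : ℝ) ≤
      (LinearMap.trace ℂ U (ρ g)).re := by
    intro g
    have hN : 0 < Nat.card G := Nat.card_pos
    have hgN : (φ g) ^ Nat.card G = 1 := by rw [← map_pow, pow_card_eq_one', map_one]
    obtain ⟨K, _, b, m, lam, hb, hTb, hlam, hm, hspan⟩ := exists_adapted (w := w) (φ g) hN hgN
      (X : Fin n → MvPolynomial (Fin n) ℂ) w (fun i => isWeightedHomogeneous_X ℂ w i) (hφX g)
    obtain ⟨L, _, h, d, mu, hh, hTh, hmu, hd, hspan'⟩ := exists_adapted (w := w) (φ g) hN hgN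
      f δ hf (hφf g)
    have hm0 : ∀ k, 0 < m k := fun k => by
      obtain ⟨i, hi⟩ := hm k
      rw [← hi]; exact hw i
    have hd2 : ∀ k, 2 ≤ d k := fun k => by
      obtain ⟨i, hi⟩ := hd k
      rw [← hi]; exact hδ i
    have hhom : ∀ l, IsWeightedHomogeneous w (h l) (d l) := by
      intro l
      have h1 : h l ∈ Submodule.span ℂ (f '' {j | δ j = d l}) := by
        rw [← hspan']; exact Submodule.subset_span ⟨l, rfl, rfl⟩
      have h2 : Submodule.span ℂ (f '' {j | δ j = d l}) ≤ weightedHomogeneousSubmodule ℂ w (d l) := by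
        apply Submodule.span_le.mpr
        rintro _ ⟨i, hi, rfl⟩
        rw [SetLike.mem_coe, mem_weightedHomogeneousSubmodule]
        have := hf i
        rw [show δ i = d l from hi] at this
        exact this
      exact (mem_weightedHomogeneousSubmodule _ _ _ _).mp (h2 h1)
    have hfh : ∀ v : Fin n → ℂ, (∀ l, eval v (h l) = 0) → ∀ j, eval v (f j) = 0 := by
      intro v hv j
      have h1 : f j ∈ Submodule.span ℂ (h '' {l | d l = δ j}) := by
        rw [hspan']; exact Submodule.subset_span ⟨j, rfl, rfl⟩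
      refine Submodule.span_induction (p := fun q _ => eval v q = 0) ?_ ?_ ?_ ?_ h1
      · rintro _ ⟨l, _, rfl⟩; exact hv l
      · simp
      · intro x y _ _ hx hy; rw [map_add, hx, hy, add_zero]
      · intro r x _ hx; rw [smul_eval, hx, mul_zero]
    have hI : ∀ v : Fin n → ℂ, (∀ j, eval v (f j) = 0) →
        ∀ p ∈ Ideal.span (Set.range f), eval v p = 0 := by
      intro v hv p hp
      refine Submodule.span_induction (p := fun q _ => eval v q = 0) ?_ ?_ ?_ ?_ hp
      · rintro _ ⟨l, rfl⟩; exact hv l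
      · simp
      · intro x y _ _ hx hy; rw [map_add, hx, hy, add_zero]
      · intro r x _ hx; rw [smul_eq_mul, map_mul, hx, mul_zero]
    have hcount := count_ineq lam m mu d hlam hm0 hmu hd2 (by
      intro t ht
      refine geo (w := w) (φ g) b m lam hb hTb hm0 hspan h d mu
        (fun l => by have := hd2 l; omega) hhom hTh t ?_
      intro v hv hhv hTv
      have hfv := hfh v hhv
      obtain ⟨e, p, q, hp, hq, hp2, hq2, hpv, hqv⟩ := hL v hv hfv
      have key : ∀ (e : ℕ) (p : MvPolynomial (Fin n) ℂ), IsWeightedHomogeneous w p e →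
          (∀ g, φ g p - p ∈ Ideal.span (Set.range f)) → eval v p ≠ 0 → (t⁻¹) ^ e = 1 := by
        intro e p hp hp2 hpv
        have h1 : eval v (φ g p) = eval v p := by
          have := hI v hfv _ (hp2 g)
          rw [map_sub] at this
          exact sub_eq_zero.mp this
        have h2 : eval v (φ g p) = (t⁻¹) ^ e * eval v p := by
          rw [eval_equiv]
          simp only [hTv]
          exact eval_scale hp _ _
        rw [h1] at h2
        exact (mul_right_cancel₀ hpv (by rw [one_mul]; exact h2)).symm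
      have h1 := key e p hp hp2 hpv
      have h2 := key (e + 1) q hq hq2 hqv
      rw [pow_succ, h1, one_mul] at h2
      exact ht (by rw [← inv_inv t, h2, inv_one]))
    -- degrees
    have hw2 : ∑ i, w i ≤ ∑ k, m k := sum_deg_le m w (fun d =>
      card_le b m (X : Fin n → MvPolynomial (Fin n) ℂ) w (linearIndependent_X _ _) d
        (hspan d).symm.le)
    have hd3 : ∑ l, d l ≤ ∑ j, δ j := sum_deg_le δ d (fun e =>
      card_le f δ h d hh e (hspan' e).le)
    -- the trace
    have htrace : LinearMap.trace ℂ U (ρ g) =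
        ∑ k ∈ Finset.univ.filter (fun k => m k = 1), lam k := by
      have hbU : ∀ k : {k // m k = 1}, b k ∈ U := by
        intro k
        rw [hU, ← hspan]
        exact Submodule.subset_span ⟨k, k.2, rfl⟩
      have hli : LinearIndependent ℂ (fun k : {k // m k = 1} => (⟨b k, hbU k⟩ : U)) := by
        apply LinearIndependent.of_comp U.subtype
        exact hb.comp _ Subtype.val_injective
      have htop : ⊤ ≤ Submodule.span ℂ (Set.range
          (fun k : {k // m k = 1} => (⟨b k, hbU k⟩ : U))) := by
        rintro ⟨u, hu⟩ _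
        have hu' := hu
        rw [hU, ← hspan] at hu'
        have h1 : b '' {k | m k = 1} = U.subtype '' (Set.range
            (fun k : {k // m k = 1} => (⟨b k, hbU k⟩ : U))) := by
          ext q
          constructor
          · rintro ⟨k, hk, rfl⟩
            exact ⟨⟨b k, hbU ⟨k, hk⟩⟩, ⟨⟨k, hk⟩, rfl⟩, rfl⟩
          · rintro ⟨_, ⟨k, rfl⟩, rfl⟩
            exact ⟨k, k.2, rfl⟩
        rw [h1, Submodule.span_image] at hu'
        obtain ⟨u', hu1, hu2⟩ := hu'
        have : u' = ⟨u, hu⟩ := Subtype.ext hu2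
        rw [← this]; exact hu1
      have h2 := trace_of_eigenbasis (Module.Basis.mk hli htop) (ρ g) (fun k => lam k) (by
        intro k
        rw [Module.Basis.mk_apply]
        apply Subtype.ext
        rw [hρ]
        exact hTb k)
      rw [h2]
      rw [← Finset.sum_subtype_eq_sum_filter]
      refine (Finset.sum_congr ?_ (fun _ _ => rfl))
      ext k; simp
    rw [htrace]
    refine le_trans ?_ hcount
    have h5 : (∑ i, (w i : ℝ)) ≤ ∑ k, (m k : ℝ) := by exact_mod_cast hw2
    have h6 : (∑ l, (d l : ℝ)) ≤ ∑ j, (δ j : ℝ) := by exact_mod_cast hd3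
    push_cast
    linarith
  have h1 := avg ρ _ htr
  have h2 : (∑ i, (w i : ℤ)) - ∑ j, (δ j : ℤ) ≤ (Module.finrank ℂ ρ.invariants : ℤ) := by
    exact_mod_cast h1
  refine h2.trans ?_
  -- finite dimensionality
  let π : MvPolynomial (Fin n) ℂ →ₗ[ℂ] (MvPolynomial (Fin n) ℂ ⧸ Ideal.span (Set.range f)) :=
    (Ideal.Quotient.mkₐ ℂ (Ideal.span (Set.range f))).toLinearMap
  have hfinI : FiniteDimensional ℂ (invPart w f φ 1) := by
    have h3 : invPart w f φ 1 ≤ Submodule.map π U := by
      rintro _ ⟨p, hp, rfl, _⟩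
      exact ⟨p, mem_span_X_of_hom hw hp, rfl⟩
    exact Submodule.finiteDimensional_of_le h3
  have hmem : ∀ u : ρ.invariants, π ((u : U) : MvPolynomial (Fin n) ℂ) ∈ invPart w f φ 1 := by
    intro u
    refine ⟨(u : U), hUhom _ (u : U).2, rfl, fun g => ?_⟩
    have h4 := u.2 g
    rw [← hρ, h4]
    rfl
  let F : ρ.invariants →ₗ[ℂ] invPart w f φ 1 :=
    LinearMap.codRestrict _ (π.comp (U.subtype.comp ρ.invariants.subtype)) hmem
  have hF : Function.Injective F := by
    rw [injective_iff_map_eq_zero]
    intro u hu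
    have h5 : π ((u : U) : MvPolynomial (Fin n) ℂ) = 0 := congrArg Subtype.val hu
    have h6 : ((u : U) : MvPolynomial (Fin n) ℂ) ∈ Ideal.span (Set.range f) :=
      Ideal.Quotient.eq_zero_iff_mem.mp h5
    have h7 := eq_zero_of_mem f δ hδ hf (hUhom _ (u : U).2) h6
    exact Subtype.ext (Subtype.ext h7)
  exact_mod_cast LinearMap.finrank_le_finrank_of_injective hF

end Pool.Agent.Results.MP_954e53_ag.DegreeOneInvariants
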