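import Mathlib
import Pool.Agent.H964R2.Gor.Poly
import Pool.Agent.H964R2.Gor.Dual

/-!
# Gorenstein section rings with `- a(S) ≥ dim S - 3`

Let `S` be a graded algebra with `S_0 = k`, and let `D = dim S`. Let `θ` be a homogeneous system of
parameters of degree `d` and let `S` be free with a homogeneous basis over `k[θ]` (`S` is
Cohen-Macaulay), with the same property for a homogeneous system of parameters `θ'` of degree
`d + 1`. Such `θ` and `θ'` exist for a Cohen-Macaulay section ring of an ample invertible sheaf. Let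
the algebra `S / (θ)` have a one-dimensional socle (`S` is Gorenstein), of degree `e`, so that
`a(S) = e - D d`. If `a(S) < 0` and `- a(S) ≥ D - 3`, then `dim S_1 ≥ D - 1`.
-/

namespace Pool.Agent.Results.MP_954e53_ag.LargeIndex

open Pool.Agent.H964R2.Gor

theorem result {k S : Type} [Field k] [CommRing S] [Nontrivial S] [Algebra k S]
    (𝒮 : ℕ → Submodule k S) [GradedAlgebra 𝒮]
    (h0 : ∀ s ∈ 𝒮 0, ∃ c : k, s = algebraMap k S c)
    {D d : ℕ} (hd : 0 < d)
    {J J' : Type} [Finite J] [Finite J']
    {θ : Fin D → S} {b : J → S} {n : J → ℕ} (h : Normalization 𝒮 d θ b n)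
    {θ' : Fin D → S} {b' : J' → S} {n' : J' → ℕ} (h' : Normalization 𝒮 (d + 1) θ' b' n')
    {e : ℕ} (htop : ∀ m, e < m → ∀ s ∈ 𝒮 m, s ∈ Ideal.span (Set.range θ))
    {z : S} (hz : z ∈ 𝒮 e) (hzI : z ∉ Ideal.span (Set.range θ))
    (hsoc : ∀ x : S, (∀ m, 0 < m → ∀ s ∈ 𝒮 m, s * x ∈ Ideal.span (Set.range θ)) →
      ∃ c : k, x - c • z ∈ Ideal.span (Set.range θ))
    (ha : e < D * d) (hindex : D + e ≤ D * d + 3) :
    D - 1 ≤ Module.finrank k (𝒮 1) := by
  classical
  have := Fintype.ofFinite J
  have := Fintype.ofFinite J'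
  have H0 : Module.finrank k (𝒮 0) = 1 := by
    have h1 : 𝒮 0 = Submodule.span k {(1 : S)} := by
      apply le_antisymm
      · intro s hs
        obtain ⟨c, rfl⟩ := h0 s hs
        rw [Submodule.mem_span_singleton]
        exact ⟨c, (Algebra.algebraMap_eq_smul_one c).symm⟩
      · rw [Submodule.span_singleton_le_iff_mem]
        exact SetLike.one_mem_graded 𝒮
    rw [h1]
    exact finrank_span_singleton one_ne_zero
  have hpal : ∀ i, i ≤ e → (num J n).coeff i = (num J n).coeff (e - i) := by
    intro i hi
    rw [num_coeff, num_coeff]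
    have h1 := pairing h htop hz hzI hsoc hi
    have h2 := pairing h htop hz hzI hsoc (Nat.sub_le e i)
    rw [Nat.sub_sub_self hi] at h2
    exact_mod_cast le_antisymm h1 h2
  have hdeg : ∀ i, e < i → (num J n).coeff i = 0 := by
    intro i hi
    rw [num_coeff, ← finrank_VV h]
    have : VV k b n i = ⊥ := by
      rw [eq_bot_iff]
      intro v hv
      exact VV_inf h hv (htop i hi v (VV_le h i hv))
    rw [this, finrank_bot]
    rfl
  have hpos : 0 < (num J n).eval 1 := by
    have h1 : (num J n).eval 1 = (Fintype.card J : ℤ) := by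
      rw [num, Polynomial.eval_finsetSum]
      simp
    have : Nonempty J := by
      by_contra hc
      rw [not_nonempty_iff] at hc
      have h2 := h.span
      rw [Set.range_eq_empty, Submodule.span_empty] at h2
      exact bot_ne_top h2
    rw [h1]
    exact_mod_cast Fintype.card_pos
  have key := poly_part D d e hd _ (num J n) (num J' n') (hilb hd h) (hilb (Nat.succ_pos d) h')
    (by rw [PowerSeries.coeff_mk, H0]; rfl) hdeg hpal hpos ha hindex
  rw [PowerSeries.coeff_mk] at key
  omega

end Pool.Agent.Results.MP_954e53_ag.LargeIndex
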