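import Mathlib

/-!
# A terminal fourfold on which an ample Cartier divisor has no section

Let `E` be the plane cubic `x ^ 3 + y ^ 3 + z ^ 3 = 0` and `A = E ^ 4`, with coordinates
`X (i, j)`, `i < 4`, `j < 3`. A homomorphism `χ : G →* (Fin 4 → Fin 3 → ℂ)` whose values are cube
roots of unity makes `G` act diagonally on `ℂ[X (i, j)]`, on `A` and on the invertible sheaf
`O(1,1,1,1)` of `A`; the section ring of `O(1,1,1,1)` on `A / G` has as its part of degree `d` the
invariant forms of degree `d` in each of the four blocks of variables, modulo the cubics.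
-/

namespace Pool.Agent.Results.MP_954e53_ag.NonvanishingFails

open MvPolynomial

/-- The point `p` of `(ℂ ^ 3) ^ 4` represents a point of `E ^ 4`. -/
def OnE (p : Fin 4 → Fin 3 → ℂ) : Prop := ∀ i, p i ≠ 0 ∧ ∑ j, p i j ^ 3 = 0

/-- `P` is homogeneous of degree `d` in the variables `X (i, 0), X (i, 1), X (i, 2)`, for every
`i`. -/
def Multi (d : ℕ) (P : MvPolynomial (Fin 4 × Fin 3) ℂ) : Prop :=
  ∀ i, IsWeightedHomogeneous (fun v : Fin 4 × Fin 3 => if v.1 = i then 1 else 0) P d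

/-- The ideal generated by the four cubics `X (i, 0) ^ 3 + X (i, 1) ^ 3 + X (i, 2) ^ 3`. -/
noncomputable def Cubics : Ideal (MvPolynomial (Fin 4 × Fin 3) ℂ) :=
  Ideal.span (Set.range fun i : Fin 4 => ∑ j : Fin 3, X (i, j) ^ 3)

variable {G : Type} [CommGroup G]

/-- The class of `P` modulo the cubics is invariant under the diagonal action of `G` with weights
`χ`. -/
def Inv (χ : G →* (Fin 4 → Fin 3 → ℂ)) (P : MvPolynomial (Fin 4 × Fin 3) ℂ) : Prop :=
  ∀ g, aeval (fun v : Fin 4 × Fin 3 => C (χ g v.1 v.2) * X v) P - P ∈ Cubics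

/-- `g` fixes the point of `E ^ 4` represented by `p`, and multiplies the representative by `l i` in
the block `i`. -/
def FixBy (χ : G →* (Fin 4 → Fin 3 → ℂ)) (g : G) (p : Fin 4 → Fin 3 → ℂ) (l : Fin 4 → ℂ) : Prop :=
  ∀ i j, χ g i j * p i j = l i * p i j

/-- `p` represents a point of `E ^ 4` with non-trivial stabiliser. -/
def Special (χ : G →* (Fin 4 → Fin 3 → ℂ)) (p : Fin 4 → Fin 3 → ℂ) : Prop :=
  OnE p ∧ ∃ g, g ≠ 1 ∧ ∃ l, FixBy χ g p l

/-- The monomial `∏ X (k, w k)` vanishes at all points of `E ^ 4` with non-trivial stabiliser. -/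
def Base (χ : G →* (Fin 4 → Fin 3 → ℂ)) (w : Fin 4 → Fin 3) : Prop :=
  ∀ q, Special χ q → ∃ k, q k (w k) = 0

/-! ## Combinatorics -/

/-- the tetracode -/
def cw (s t : ZMod 3) : Fin 4 → ZMod 3 := ![s, s + t, s + 2 * t, t]

/-- exponents -/
def ex (g : ZMod 3 × ZMod 3 × ZMod 3) (i : Fin 4) (j : Fin 3) : ZMod 3 :=
  (if i = 0 then g.2.1 else 0) + ![0, cw g.1 g.2.1 i, 2 * cw g.1 g.2.1 i + g.2.2] j

lemma ex_add (g h : ZMod 3 × ZMod 3 × ZMod 3) (i : Fin 4) (j : Fin 3) :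
    ex (g + h) i j = ex g i j + ex h i j := by
  fin_cases i <;> fin_cases j <;> simp [ex, cw] <;> ring

lemma no_section : ∀ w : Fin 4 → Fin 3, ∃ g : ZMod 3 × ZMod 3 × ZMod 3,
    ∑ i, ex g i (w i) ≠ 0 := by
  decide +kernel


/-- degrees of a monomial of degree 4 in a block, avoiding the variable `z` -/
def tb (z : Fin 3) (v : ZMod 3) : Fin 3 → ℕ :=
  if z = 0 then (if v = 0 then ![0, 0, 4] else if v = 1 then ![0, 2, 2] else ![0, 4, 0])
  else if z = 1 then (if v = 0 then ![0, 0, 4] else if v = 1 then ![4, 0, 0] else ![2, 0, 2])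
  else (if v = 0 then ![2, 2, 0] else if v = 1 then ![4, 0, 0] else ![0, 4, 0])

lemma tb_sum : ∀ z v, ∑ j, tb z v j = 4 := by decide +kernel

lemma tb_z : ∀ z v, tb z v z = 0 := by decide +kernel

lemma deg_four : ∀ z : Fin 4 → Fin 3, ∃ s t : ZMod 3, ∀ g : ZMod 3 × ZMod 3 × ZMod 3,
    ∑ i, ∑ j, ((tb (z i) (cw s t i) j : ℕ) : ZMod 3) * ex g i j = 0 := by
  decide +kernel

/-- the position of the zero -/
def pos (x : ZMod 3) : Fin 3 := if x = 0 then 2 else if x = 1 then 1 else 0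

lemma pos_inj : ∀ x y, pos x = pos y → x = y := by decide +kernel

lemma pos_surj : ∀ j, ∃ x, pos x = j := by decide +kernel

lemma agree : ∀ s t s' t' : ZMod 3, ∃ k, cw s t k = cw s' t' k := by decide +kernel

lemma avoid : ∀ z : Fin 4 → Option (ZMod 3), (∃ s t, ∀ k, z k = some (cw s t k)) ∨
    (∃ s t, ∀ k, z k ≠ some (cw s t k)) := by
  decide +kernel

lemma onlyAt : ∀ s t : ZMod 3, ∀ i, ∃ s' t', cw s' t' i = cw s t i ∧
    ∀ k, k ≠ i → cw s' t' k ≠ cw s t k := by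
  decide +kernel

/-- in a block, if the exponents at two positions other than `pos x` agree then `x = c * a` and the
third exponent is theirs plus `a` -/
lemma block : ∀ (g : ZMod 3 × ZMod 3 × ZMod 3) (i : Fin 4) (x : ZMod 3),
    (∀ j k, j ≠ pos x → k ≠ pos x → ex g i j = ex g i k) →
    (g.2.2 = 0 → cw g.1 g.2.1 i = 0) ∧ (g.2.2 ≠ 0 → x = g.2.2 * cw g.1 g.2.1 i) ∧
      ∀ j, j ≠ pos x → ex g i (pos x) = g.2.2 + ex g i j := by
  decide +kernel

lemma block' : ∀ (s t : ZMod 3) (i : Fin 4) (j k : Fin 3),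
    j ≠ pos (cw s t i) → k ≠ pos (cw s t i) → ex (s, t, 1) i j = ex (s, t, 1) i k := by
  decide +kernel

lemma cw_smul : ∀ a s t : ZMod 3, ∀ i, cw (a * s) (a * t) i = a * cw s t i := by
  decide +kernel

lemma cw_zero : ∀ s t : ZMod 3, (∀ i, cw s t i = 0) → s = 0 ∧ t = 0 := by
  decide +kernel


/-! ## The characters -/

lemma om_prim : IsPrimitiveRoot (Complex.exp (2 * Real.pi * Complex.I / (3 : ℕ))) 3 :=
  Complex.isPrimitiveRoot_exp 3 (by norm_num)

/-- a non-trivial additive character of `ZMod 3` -/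
noncomputable def psi : AddChar (ZMod 3) ℂ := AddChar.zmodChar 3 om_prim.pow_eq_one

lemma psi_cube (a : ZMod 3) : psi a ^ 3 = 1 := by
  rw [← AddChar.map_nsmul_eq_pow]
  have : 3 • a = 0 := by revert a; decide
  rw [this, AddChar.map_zero_eq_one]

lemma psi_eq_one {a : ZMod 3} (h : psi a = 1) : a = 0 := by
  have h1 : psi a = (Complex.exp (2 * Real.pi * Complex.I / (3 : ℕ))) ^ a.val :=
    AddChar.zmodChar_apply _ _
  rw [h1] at h
  have h2 := (om_prim.pow_eq_one_iff_dvd _).mp h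
  have h3 : a.val < 3 := ZMod.val_lt a
  have h4 : a.val = 0 := Nat.eq_zero_of_dvd_of_lt h2 h3
  exact (ZMod.val_eq_zero a).mp h4

lemma psi_ne_zero (a : ZMod 3) : psi a ≠ 0 := by
  intro h
  have := psi_cube a
  rw [h] at this
  norm_num at this

lemma psi_inj {a b : ZMod 3} (h : psi a = psi b) : a = b := by
  have h1 : psi (a - b) = 1 := by
    rw [AddChar.map_sub_eq_div, h, div_self (psi_ne_zero b)]
  exact sub_eq_zero.mp (psi_eq_one h1)

/-- the group of order 27 -/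
abbrev GG : Type := Multiplicative (ZMod 3 × ZMod 3 × ZMod 3)

/-- the weights -/
noncomputable def chi : GG →* (Fin 4 → Fin 3 → ℂ) where
  toFun g i j := psi (ex g.toAdd i j)
  map_one' := by
    funext i j
    have : ex (0 : ZMod 3 × ZMod 3 × ZMod 3) i j = 0 := by
      have := ex_add 0 0 i j
      rw [add_zero] at this
      exact left_eq_add.mp this
    rw [toAdd_one, this, AddChar.map_zero_eq_one]
    rfl
  map_mul' g h := by
    funext i j
    rw [toAdd_mul, ex_add, AddChar.map_add_eq_mul]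
    rfl

lemma chi_apply (g : GG) (i : Fin 4) (j : Fin 3) : chi g i j = psi (ex g.toAdd i j) := rfl

lemma aeval_monomial' (c : Fin 4 × Fin 3 → ℂ) (u : Fin 4 × Fin 3 →₀ ℕ) (a : ℂ) :
    aeval (fun v : Fin 4 × Fin 3 => C (c v) * X v) (monomial u a) =
      (monomial u ((∏ v, c v ^ u v) * a) : MvPolynomial (Fin 4 × Fin 3) ℂ) := by
  rw [aeval_monomial, Finsupp.prod_fintype _ _ (fun i => pow_zero _)]
  simp_rw [mul_pow, Finset.prod_mul_distrib]
  rw [monomial_eq (s := u) (a := (∏ v, c v ^ u v) * a), Finsupp.prod_fintype _ _ (fun i => pow_zero _),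
    C_mul, map_prod]
  simp_rw [C_pow]
  rw [algebraMap_eq]
  ring

lemma coeff_aeval (c : Fin 4 × Fin 3 → ℂ) (P : MvPolynomial (Fin 4 × Fin 3) ℂ)
    (m : Fin 4 × Fin 3 →₀ ℕ) :
    coeff m (aeval (fun v : Fin 4 × Fin 3 => C (c v) * X v) P) = (∏ v, c v ^ m v) * coeff m P := by
  induction P using MvPolynomial.induction_on' with
  | monomial u a =>
    rw [aeval_monomial', coeff_monomial, coeff_monomial]
    split_ifs with h
    · rw [h]
    · ring
  | add p q hp hq => rw [map_add, coeff_add, coeff_add, hp, hq]; ring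

lemma weight_eq (i : Fin 4) (m : Fin 4 × Fin 3 →₀ ℕ) :
    Finsupp.weight (fun v : Fin 4 × Fin 3 => if v.1 = i then 1 else 0) m = ∑ j, m (i, j) := by
  rw [Finsupp.weight_apply, Finsupp.sum_fintype _ _ (by simp), Fintype.sum_prod_type,
    Finset.sum_eq_single i]
  · simp
  · intro b _ hb
    simp [hb]
  · simp

lemma psi_sum {ι : Type} (s : Finset ι) (f : ι → ZMod 3) :
    psi (∑ i ∈ s, f i) = ∏ i ∈ s, psi (f i) := by
  classical
  induction s using Finset.induction_on with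
  | empty => simp
  | insert a s ha ih => rw [Finset.sum_insert ha, Finset.prod_insert ha, AddChar.map_add_eq_mul, ih]

lemma prod_split (g : GG) (m : Fin 4 × Fin 3 →₀ ℕ) :
    ∏ v : Fin 4 × Fin 3, chi g v.1 v.2 ^ m v =
      psi (∑ i, ∑ j, ((m (i, j) : ℕ) : ZMod 3) * ex g.toAdd i j) := by
  rw [Fintype.prod_prod_type, psi_sum]
  refine Finset.prod_congr rfl fun i _ => ?_
  rw [psi_sum]
  refine Finset.prod_congr rfl fun j _ => ?_
  rw [chi_apply, ← AddChar.map_nsmul_eq_pow, nsmul_eq_mul]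

lemma coeff_cubics {P : MvPolynomial (Fin 4 × Fin 3) ℂ} (hP : P ∈ Cubics)
    {m : Fin 4 × Fin 3 →₀ ℕ} (hm : ∀ i, ∑ j, m (i, j) = 1) : coeff m P = 0 := by
  have hm' : ∀ v, m v ≤ 1 := fun v => by
    have := hm v.1
    have h1 : m (v.1, v.2) ≤ ∑ j, m (v.1, j) :=
      Finset.single_le_sum (f := fun j => m (v.1, j)) (fun _ _ => Nat.zero_le _) (Finset.mem_univ _)
    rw [this] at h1
    exact h1
  refine Submodule.span_induction (p := fun q _ => ∀ m : Fin 4 × Fin 3 →₀ ℕ, (∀ v, m v ≤ 1) →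
    coeff m q = 0) ?_ ?_ ?_ ?_ hP m hm'
  · rintro _ ⟨i, rfl⟩ m hm
    rw [coeff_sum]
    refine Finset.sum_eq_zero fun j _ => ?_
    rw [coeff_X_pow, if_neg]
    intro h
    have := hm (i, j)
    rw [← h, Finsupp.single_eq_same] at this
    omega
  · intro m _; exact coeff_zero m
  · intro a b _ _ ha hb m hm
    rw [coeff_add, ha m hm, hb m hm, add_zero]
  · intro r a _ ha m hm
    rw [smul_eq_mul, coeff_mul]
    refine Finset.sum_eq_zero fun q hq => ?_
    rw [ha q.2 (fun v => ?_), mul_zero]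
    have h1 : q.1 + q.2 = m := Finset.HasAntidiagonal.mem_antidiagonal.mp hq
    have h2 := hm v
    rw [← h1, Finsupp.add_apply] at h2
    omega

lemma sec_zero (P : MvPolynomial (Fin 4 × Fin 3) ℂ) (hP : Multi 1 P) (hI : Inv chi P) : P = 0 := by
  ext m
  rw [coeff_zero]
  by_contra hm
  have h1 : ∀ i, ∑ j, m (i, j) = 1 := fun i => by
    rw [← weight_eq]; exact hP i hm
  have h2 : ∀ i, ∃ j, m (i, j) = 1 ∧ ∀ k, k ≠ j → m (i, k) = 0 := by
    intro i
    have := h1 i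
    rw [Fin.sum_univ_three] at this
    rcases Nat.eq_zero_or_pos (m (i, 0)) with h0 | h0
    · rcases Nat.eq_zero_or_pos (m (i, 1)) with h3 | h3
      · refine ⟨2, by omega, fun k hk => ?_⟩
        fin_cases k
        · exact h0
        · exact h3
        · exact absurd rfl hk
      · refine ⟨1, by omega, fun k hk => ?_⟩
        fin_cases k
        · exact h0
        · exact absurd rfl hk
        · show m (i, 2) = 0
          omega
    · refine ⟨0, by omega, fun k hk => ?_⟩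
      fin_cases k
      · exact absurd rfl hk
      · show m (i, 1) = 0
        omega
      · show m (i, 2) = 0
        omega
  choose w hw1 hw0 using h2
  obtain ⟨g, hg⟩ := no_section w
  apply hg
  have h3 := coeff_cubics (hI (Multiplicative.ofAdd g)) h1
  rw [coeff_sub, sub_eq_zero, coeff_aeval (fun v => chi (Multiplicative.ofAdd g) v.1 v.2)] at h3
  have h4 : ∏ v : Fin 4 × Fin 3, chi (Multiplicative.ofAdd g) v.1 v.2 ^ m v = 1 :=
    mul_right_cancel₀ hm (h3.trans (one_mul _).symm)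
  rw [prod_split] at h4
  have h5 := psi_eq_one h4
  rw [toAdd_ofAdd] at h5
  rw [← h5]
  refine Finset.sum_congr rfl fun i _ => ?_
  rw [Finset.sum_eq_single (w i)]
  · rw [hw1 i]; simp
  · intro k _ hk
    rw [hw0 i k hk]; simp
  · simp

/-- the monomial with exponents `b` -/
noncomputable def mono (b : Fin 4 → Fin 3 → ℕ) : MvPolynomial (Fin 4 × Fin 3) ℂ :=
  monomial (Finsupp.equivFunOnFinite.symm (fun v : Fin 4 × Fin 3 => b v.1 v.2)) 1

lemma mono_multi (b : Fin 4 → Fin 3 → ℕ) (d : ℕ) (h : ∀ i, ∑ j, b i j = d) : Multi d (mono b) := by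
  intro i
  apply isWeightedHomogeneous_monomial
  rw [weight_eq]
  exact h i

lemma mono_inv (b : Fin 4 → Fin 3 → ℕ)
    (h : ∀ g : ZMod 3 × ZMod 3 × ZMod 3, ∑ i, ∑ j, ((b i j : ℕ) : ZMod 3) * ex g i j = 0) :
    Inv chi (mono b) := by
  intro g
  rw [mono, aeval_monomial' (fun v => chi g v.1 v.2), prod_split]
  have : ∑ i, ∑ j, (((Finsupp.equivFunOnFinite.symm (fun v : Fin 4 × Fin 3 => b v.1 v.2)) (i, j) : ℕ) :
      ZMod 3) * ex g.toAdd i j = 0 := h g.toAdd
  rw [this, AddChar.map_zero_eq_one, one_mul, sub_self]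
  exact Submodule.zero_mem _

lemma mono_eval (b : Fin 4 → Fin 3 → ℕ) (p : Fin 4 → Fin 3 → ℂ)
    (h : ∀ i j, b i j ≠ 0 → p i j ≠ 0) : eval (fun v => p v.1 v.2) (mono b) ≠ 0 := by
  rw [mono, eval_monomial, one_mul, Finsupp.prod_fintype _ _ (fun i => pow_zero _)]
  refine Finset.prod_ne_zero_iff.mpr fun v _ => ?_
  rcases Nat.eq_zero_or_pos (b v.1 v.2) with h0 | h0
  · show p v.1 v.2 ^ b v.1 v.2 ≠ 0
    rw [h0, pow_zero]; exact one_ne_zero
  · exact pow_ne_zero _ (h _ _ (Nat.pos_iff_ne_zero.mp h0))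

/-- at most one coordinate of a block vanishes -/
lemma zero_unique {p : Fin 4 → Fin 3 → ℂ} (hp : OnE p) {i : Fin 4} {j k : Fin 3}
    (hj : p i j = 0) (hk : p i k = 0) : j = k := by
  by_contra hjk
  obtain ⟨h1, h2⟩ := hp i
  apply h1
  have h3 : ∀ l, l ≠ j → l ≠ k → p i l = 0 := by
    intro l hl hl'
    have : ∑ m, p i m ^ 3 = p i l ^ 3 := by
      apply Finset.sum_eq_single l
      · intro b _ hb
        have : b = j ∨ b = k := by
          revert hjk hl hl' hb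
          clear hj hk
          revert b l j k
          decide
        rcases this with rfl | rfl
        · rw [hj]; norm_num
        · rw [hk]; norm_num
      · simp
    rw [this] at h2
    exact pow_eq_zero_iff (by norm_num) |>.mp h2
  funext l
  by_cases hl : l = j
  · rw [hl]; exact hj
  · by_cases hl' : l = k
    · rw [hl']; exact hk
    · exact h3 l hl hl'

/-- for every block a position such that the other coordinates do not vanish -/
lemma exists_z {p : Fin 4 → Fin 3 → ℂ} (hp : OnE p) :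
    ∃ z : Fin 4 → Fin 3, ∀ i j, j ≠ z i → p i j ≠ 0 := by
  have : ∀ i, ∃ z : Fin 3, ∀ j, j ≠ z → p i j ≠ 0 := by
    intro i
    by_cases h : ∃ z, p i z = 0
    · obtain ⟨z, hz⟩ := h
      exact ⟨z, fun j hj h0 => hj (zero_unique hp h0 hz)⟩
    · push Not at h
      exact ⟨0, fun j _ => h j⟩
  choose z hz using this
  exact ⟨z, hz⟩

lemma free_four {p : Fin 4 → Fin 3 → ℂ} (hp : OnE p) :
    ∃ Q, Multi 4 Q ∧ Inv chi Q ∧ eval (fun v => p v.1 v.2) Q ≠ 0 := by
  obtain ⟨z, hz⟩ := exists_z hp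
  obtain ⟨s, t, hst⟩ := deg_four z
  refine ⟨mono (fun i => tb (z i) (cw s t i)), mono_multi _ _ (fun i => tb_sum _ _),
    mono_inv _ hst, mono_eval _ _ (fun i j hb => hz i j ?_)⟩
  rintro rfl
  exact hb (tb_z _ _)

lemma free_three {p : Fin 4 → Fin 3 → ℂ} (hp : OnE p) :
    ∃ Q, Multi 3 Q ∧ Inv chi Q ∧ eval (fun v => p v.1 v.2) Q ≠ 0 := by
  have : ∀ i, ∃ j, p i j ≠ 0 := fun i => by
    by_contra h
    push Not at h
    exact (hp i).1 (funext h)
  choose u hu using this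
  refine ⟨mono (fun i j => if j = u i then 3 else 0), mono_multi _ _ (fun i => by simp),
    mono_inv _ (fun g => ?_), mono_eval _ _ (fun i j hb => ?_)⟩
  · refine Finset.sum_eq_zero fun i _ => Finset.sum_eq_zero fun j _ => ?_
    split_ifs
    · have : ((3 : ℕ) : ZMod 3) = 0 := by decide
      rw [this, zero_mul]
    · simp
  · by_cases h : j = u i
    · rw [h]; exact hu i
    · simp [h] at hb

/-! ## Fixed points -/

lemma fix_block {p : Fin 4 → Fin 3 → ℂ} {g : GG} {l : Fin 4 → ℂ}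
    (h : FixBy chi g p l) (i : Fin 4) {x : ZMod 3} (hx : ∀ j, j ≠ pos x → p i j ≠ 0) :
    (g.toAdd.2.2 = 0 → cw g.toAdd.1 g.toAdd.2.1 i = 0) ∧
    (g.toAdd.2.2 ≠ 0 → x = g.toAdd.2.2 * cw g.toAdd.1 g.toAdd.2.1 i) ∧
    chi g i (pos x) = psi g.toAdd.2.2 * l i := by
  have h1 : ∀ j, j ≠ pos x → psi (ex g.toAdd i j) = l i := fun j hj =>
    mul_right_cancel₀ (hx j hj) (h i j)
  obtain ⟨h2, h3, h4⟩ := block g.toAdd i x (fun j k hj hk => psi_inj ((h1 j hj).trans (h1 k hk).symm))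
  refine ⟨h2, h3, ?_⟩
  obtain ⟨j, hj⟩ : ∃ j, j ≠ pos x := exists_ne _
  rw [chi_apply, h4 j hj, AddChar.map_add_eq_mul, h1 j hj]

lemma fix_ne {p : Fin 4 → Fin 3 → ℂ} (hp : OnE p) {g : GG} (hg : g ≠ 1) {l : Fin 4 → ℂ}
    (h : FixBy chi g p l) : g.toAdd.2.2 ≠ 0 := by
  intro ha
  apply hg
  have hx : ∀ i, ∃ x, ∀ j, j ≠ pos x → p i j ≠ 0 := by
    obtain ⟨z, hz⟩ := exists_z hp
    intro i
    obtain ⟨x, hx⟩ := pos_surj (z i)
    exact ⟨x, fun j hj => hz i j (by rw [← hx]; exact hj)⟩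
  have h1 : ∀ i, cw g.toAdd.1 g.toAdd.2.1 i = 0 := by
    intro i
    obtain ⟨x, hx⟩ := hx i
    exact (fix_block h i hx).1 ha
  obtain ⟨h2, h3⟩ := cw_zero _ _ h1
  have : g.toAdd = 0 := Prod.ext h2 (Prod.ext h3 ha)
  exact toAdd_eq_zero.mp this

/-- the type of a fixed point -/
lemma fix_type {p : Fin 4 → Fin 3 → ℂ} (hp : OnE p) {g : GG} (hg : g ≠ 1) {l : Fin 4 → ℂ}
    (h : FixBy chi g p l) (i : Fin 4) :
    p i (pos (g.toAdd.2.2 * cw g.toAdd.1 g.toAdd.2.1 i)) = 0 := by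
  have ha := fix_ne hp hg h
  by_contra h0
  obtain ⟨z, hz⟩ := exists_z hp
  -- all coordinates in the block `i` are non-zero
  have h1 : ∀ j, p i j ≠ 0 := by
    intro j hj
    obtain ⟨x, rfl⟩ := pos_surj j
    have h2 := (fix_block h i (x := x) (fun k hk hk0 => hk (zero_unique hp hk0 hj))).2.1 ha
    rw [h2] at hj
    exact h0 hj
  have h2 := (fix_block h i (x := 0) (fun k _ => h1 k)).2.1 ha
  have h3 := (fix_block h i (x := 1) (fun k _ => h1 k)).2.1 ha
  rw [← h2] at h3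
  exact absurd h3 (by decide)

lemma special_iff {p : Fin 4 → Fin 3 → ℂ} (hp : OnE p) :
    Special chi p ↔ ∃ s t, ∀ k, p k (pos (cw s t k)) = 0 := by
  constructor
  · rintro ⟨_, g, hg, l, h⟩
    refine ⟨g.toAdd.2.2 * g.toAdd.1, g.toAdd.2.2 * g.toAdd.2.1, fun k => ?_⟩
    rw [cw_smul]
    exact fix_type hp hg h k
  · rintro ⟨s, t, h⟩
    refine ⟨hp, Multiplicative.ofAdd (s, t, 1), ?_, ?_⟩
    · intro h1
      have h2 : ((s, t, 1) : ZMod 3 × ZMod 3 × ZMod 3) = 0 := h1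
      have h3 : (1 : ZMod 3) = 0 := congrArg (fun q => q.2.2) h2
      exact absurd h3 (by decide)
    · have : ∀ i, ∃ j, j ≠ pos (cw s t i) := fun i => exists_ne _
      choose u hu using this
      refine ⟨fun i => psi (ex (s, t, 1) i (u i)), fun i j => ?_⟩
      by_cases hj : j = pos (cw s t i)
      · rw [hj, h i, mul_zero, mul_zero]
      · rw [chi_apply, toAdd_ofAdd, block' s t i j (u i) hj (hu i)]

lemma base_of (s t : ZMod 3) : Base chi (fun k => pos (cw s t k)) := by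
  intro q hq
  obtain ⟨s', t', h⟩ := (special_iff hq.1).mp hq
  obtain ⟨k, hk⟩ := agree s t s' t'
  exact ⟨k, by show q k (pos (cw s t k)) = 0; rw [hk]; exact h k⟩

theorem result : ∃ (G : Type) (_ : CommGroup G) (_ : Finite G) (χ : G →* (Fin 4 → Fin 3 → ℂ)),
    Nat.card G = 27 ∧
    (∀ g i j, χ g i j ^ 3 = 1) ∧
    (∀ P, Multi 1 P → Inv χ P → P = 0) ∧
    (∀ p, OnE p → ∃ P Q, Multi 3 P ∧ Multi 4 Q ∧ Inv χ P ∧ Inv χ Q ∧
      eval (fun v => p v.1 v.2) P ≠ 0 ∧ eval (fun v => p v.1 v.2) Q ≠ 0) ∧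
    (∀ g, g ≠ 1 → ∀ p l, OnE p → FixBy χ g p l → ∃ η : ℂ, η ≠ 1 ∧ ∀ i, ∃ j,
      p i j = 0 ∧ (∀ k, k ≠ j → p i k ≠ 0) ∧ χ g i j = η * l i) ∧
    (∃ g, ∏ i, ∏ j, χ g i j ≠ 1) ∧
    (∀ p, OnE p → ¬ Special χ p → ∃ w, Base χ w ∧ ∀ k, p k (w k) ≠ 0) ∧
    (∀ p, Special χ p → ∀ i, ∃ w, Base χ w ∧ p i (w i) = 0 ∧ ∀ k, k ≠ i → p k (w k) ≠ 0) := by
  refine ⟨GG, inferInstance, inferInstance, chi, ?_, fun g i j => psi_cube _, sec_zero, ?_, ?_, ?_,
    ?_, ?_⟩
  · rw [Nat.card_eq_fintype_card]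
    decide +kernel
  · intro p hp
    obtain ⟨P, hP, hP', hP''⟩ := free_three hp
    obtain ⟨Q, hQ, hQ', hQ''⟩ := free_four hp
    exact ⟨P, Q, hP, hQ, hP', hQ', hP'', hQ''⟩
  · intro g hg p l hp h
    refine ⟨psi g.toAdd.2.2, fun h1 => fix_ne hp hg h (psi_eq_one h1), fun i => ?_⟩
    have h0 := fix_type hp hg h i
    refine ⟨_, h0, fun k hk hk0 => hk (zero_unique hp hk0 h0), ?_⟩
    exact (fix_block h i (fun k hk hk0 => hk (zero_unique hp hk0 h0))).2.2
  · refine ⟨Multiplicative.ofAdd (0, 0, 1), fun h => ?_⟩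
    have h1 : ∏ i, ∏ j, chi (Multiplicative.ofAdd (0, 0, 1)) i j =
        psi (∑ i : Fin 4, ∑ j : Fin 3, ex (0, 0, 1) i j) := by
      rw [psi_sum]
      refine Finset.prod_congr rfl fun i _ => ?_
      rw [psi_sum]
      rfl
    rw [h1] at h
    exact absurd (psi_eq_one h) (by decide +kernel)
  · intro p hp hs
    -- the pattern of zeros
    have h1 : ∀ k, ∃ o : Option (ZMod 3), ∀ x, p k (pos x) = 0 ↔ o = some x := by
      intro k
      by_cases h : ∃ x, p k (pos x) = 0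
      · obtain ⟨x, hx⟩ := h
        refine ⟨some x, fun y => ⟨fun hy => ?_, fun hy => ?_⟩⟩
        · rw [pos_inj _ _ (zero_unique hp hx hy)]
        · rw [← Option.some_injective _ hy]; exact hx
      · push Not at h
        exact ⟨none, fun x => ⟨fun hx => absurd hx (h x), fun hx => absurd hx (by simp)⟩⟩
    choose z hz using h1
    rcases avoid z with ⟨s, t, h⟩ | ⟨s, t, h⟩
    · exact absurd ((special_iff hp).mpr ⟨s, t, fun k => (hz k _).mpr (h k)⟩) hs
    · exact ⟨_, base_of s t, fun k hk => h k ((hz k _).mp hk)⟩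
  · intro p hs i
    obtain ⟨s, t, h⟩ := (special_iff hs.1).mp hs
    obtain ⟨s', t', h1, h2⟩ := onlyAt s t i
    refine ⟨_, base_of s' t', by rw [h1]; exact h i, fun k hk hk0 => h2 k hk ?_⟩
    exact pos_inj _ _ (zero_unique hs.1 hk0 (h k))

end Pool.Agent.Results.MP_954e53_ag.NonvanishingFails
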