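import Mathlib

/-!
# Degree one elements of section rings of quotients of varieties with a torus action

`R` is a normal domain over a field `k`, graded by the character group `Λ` of a torus; `deg : Λ →+ ℤ`
gives the grading of the section ring. A finite group `G` acts on `R` by `k`-algebra automorphisms
normalising the torus (`φ g` maps the weight space of `u` to the weight space of `α g u`), and
`S = R^G`. The homomorphism `ℓ : Λ →+ ℤ` is a one-parameter subgroup of the torus with an isolated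
extremal fixed point.
-/

namespace Pool.Agent.Results.MP_954e53_ag.TorusFixedPoint

open DirectSum

set_option linter.unusedSectionVars false

variable {k R Λ : Type} [Field k] [CommRing R] [Algebra k R] [AddCommGroup Λ] [DecidableEq Λ]

/-- `x` lies in the degree `n` part of `R`: every nonzero component has weight `u` of degree `n`. -/
def InDeg (𝒜 : Λ → Submodule k R) [GradedAlgebra 𝒜] (deg : Λ →+ ℤ) (n : ℤ) (x : R) : Prop :=
  ∀ u, ((decompose 𝒜 x u : 𝒜 u) : R) ≠ 0 → deg u = n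

/-- `x` lies in the degree `n` part `S_n` of the ring of invariants `S = R^G`. -/
def InvDeg (𝒜 : Λ → Submodule k R) [GradedAlgebra 𝒜] (deg : Λ →+ ℤ) {G : Type} [Group G]
    (φ : G →* (R ≃ₐ[k] R)) (n : ℤ) (x : R) : Prop :=
  InDeg 𝒜 deg n x ∧ ∀ g, φ g x = x

section lemmas

variable (𝒜 : Λ → Submodule k R) [GradedAlgebra 𝒜]

theorem comp_of_mem {x : R} {u : Λ} (hx : x ∈ 𝒜 u) (v : Λ) :
    ((decompose 𝒜 x v : 𝒜 v) : R) = if u = v then x else 0 := by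
  split_ifs with h
  · subst h
    exact decompose_of_mem_same 𝒜 hx
  · exact decompose_of_mem_ne 𝒜 hx h

theorem eq_of_mem {x : R} {u v : Λ} (hx : x ∈ 𝒜 u) (hy : x ∈ 𝒜 v) (h : x ≠ 0) : u = v := by
  by_contra hne
  have h1 := comp_of_mem 𝒜 hx v
  have h2 := comp_of_mem 𝒜 hy v
  rw [if_neg hne] at h1
  rw [if_pos rfl] at h2
  exact h (h2.symm.trans h1)

theorem comp_add (x y : R) (u : Λ) : ((decompose 𝒜 (x + y) u : 𝒜 u) : R) =
    (decompose 𝒜 x u : 𝒜 u) + (decompose 𝒜 y u : 𝒜 u) := by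
  rw [decompose_add]; rfl

theorem comp_sum {ι : Type} (s : Finset ι) (f : ι → R) (u : Λ) :
    ((decompose 𝒜 (∑ i ∈ s, f i) u : 𝒜 u) : R) = ∑ i ∈ s, ((decompose 𝒜 (f i) u : 𝒜 u) : R) := by
  classical
  induction s using Finset.induction_on with
  | empty => simp
  | insert a s ha ih => rw [Finset.sum_insert ha, Finset.sum_insert ha, comp_add, ih]

/-- an automorphism permuting the weight spaces commutes with taking components -/
theorem comp_map (f : R ≃ₐ[k] R) (α : Λ ≃+ Λ) (h : ∀ u, ∀ x ∈ 𝒜 u, f x ∈ 𝒜 (α u)) (x : R) (u : Λ) :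
    ((decompose 𝒜 (f x) (α u) : 𝒜 (α u)) : R) = f ((decompose 𝒜 x u : 𝒜 u) : R) := by
  classical
  have hx : x = ∑ v ∈ (decompose 𝒜 x).support, ((decompose 𝒜 x v : 𝒜 v) : R) :=
    (sum_support_decompose 𝒜 x).symm
  have h1 : f x = ∑ v ∈ (decompose 𝒜 x).support, f ((decompose 𝒜 x v : 𝒜 v) : R) := by
    conv_lhs => rw [hx]
    rw [map_sum]
  rw [h1, comp_sum]
  have h2 : ∀ v ∈ (decompose 𝒜 x).support,
      ((decompose 𝒜 (f ((decompose 𝒜 x v : 𝒜 v) : R)) (α u) : 𝒜 (α u)) : R) =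
        if v = u then f ((decompose 𝒜 x v : 𝒜 v) : R) else 0 := by
    intro v _
    rw [comp_of_mem 𝒜 (h v _ (decompose 𝒜 x v).2) (α u)]
    simp only [α.injective.eq_iff]
  rw [Finset.sum_congr rfl h2, Finset.sum_ite_eq']
  split_ifs with h3
  · rfl
  · have h4 : (decompose 𝒜 x u) = 0 := by
      simpa [DFinsupp.mem_support_toFun] using h3
    rw [h4]; simp

end lemmas

/-- the inclusion of the weight spaces with `ℓ u = 0` -/
def pf (𝒜 : Λ → Submodule k R) (ℓ : Λ →+ ℤ) (u : Λ) : 𝒜 u →ₗ[k] R :=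
  if ℓ u = 0 then (𝒜 u).subtype else 0

theorem pf_apply (𝒜 : Λ → Submodule k R) (ℓ : Λ →+ ℤ) (u : Λ) (x : 𝒜 u) :
    pf 𝒜 ℓ u x = if ℓ u = 0 then (x : R) else 0 := by
  unfold pf
  split_ifs <;> rfl

theorem pf_one (𝒜 : Λ → Submodule k R) [GradedAlgebra 𝒜] (ℓ : Λ →+ ℤ) :
    pf 𝒜 ℓ 0 (GradedMonoid.GOne.one (A := fun u => 𝒜 u)) = 1 := by
  rw [pf_apply, if_pos (map_zero ℓ)]
  rfl

theorem pf_mul (𝒜 : Λ → Submodule k R) [GradedAlgebra 𝒜] (ℓ : Λ →+ ℤ)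
    (hℓ : ∀ u, ∀ x ∈ 𝒜 u, x ≠ 0 → 0 ≤ ℓ u) {u v : Λ} (x : 𝒜 u) (y : 𝒜 v) :
    pf 𝒜 ℓ (u + v) (GradedMonoid.GMul.mul (A := fun u => 𝒜 u) x y) = pf 𝒜 ℓ u x * pf 𝒜 ℓ v y := by
  rw [pf_apply, pf_apply, pf_apply]
  have h0 : ((GradedMonoid.GMul.mul (A := fun u => 𝒜 u) x y : 𝒜 (u + v)) : R) = x * y := rfl
  rw [h0]
  by_cases hx : (x : R) = 0
  · rw [hx]; simp
  by_cases hy : (y : R) = 0
  · rw [hy]; simp
  have hu := hℓ u _ x.2 hx
  have hv := hℓ v _ y.2 hy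
  rw [map_add]
  by_cases h1 : ℓ u = 0
  · by_cases h2 : ℓ v = 0
    · rw [if_pos h1, if_pos h2, if_pos (by omega)]
    · rw [if_neg h2, if_neg (by omega)]; simp
  · rw [if_neg h1, if_neg (by omega)]; simp

/-- projection of `R` onto the part of `ℓ`-weight zero -/
noncomputable def proj (𝒜 : Λ → Submodule k R) [GradedAlgebra 𝒜] (ℓ : Λ →+ ℤ)
    (hℓ : ∀ u, ∀ x ∈ 𝒜 u, x ≠ 0 → 0 ≤ ℓ u) : R →ₐ[k] R :=
  (DirectSum.toAlgebra k (fun u => 𝒜 u) (pf 𝒜 ℓ) (pf_one 𝒜 ℓ)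
    (fun {_ _} x y => pf_mul 𝒜 ℓ hℓ x y)).comp (decomposeAlgEquiv 𝒜).toAlgHom

theorem proj_of_mem (𝒜 : Λ → Submodule k R) [GradedAlgebra 𝒜] (ℓ : Λ →+ ℤ)
    (hℓ : ∀ u, ∀ x ∈ 𝒜 u, x ≠ 0 → 0 ≤ ℓ u) {u : Λ} {x : R} (hx : x ∈ 𝒜 u) :
    proj 𝒜 ℓ hℓ x = if ℓ u = 0 then x else 0 := by
  have h1 : decompose 𝒜 x = DirectSum.of (fun u => 𝒜 u) u ⟨x, hx⟩ := decompose_of_mem 𝒜 hx
  show DirectSum.toAlgebra k (fun u => 𝒜 u) (pf 𝒜 ℓ) (pf_one 𝒜 ℓ)
    (fun {_ _} x y => pf_mul 𝒜 ℓ hℓ x y) (decompose 𝒜 x) = _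
  rw [h1]
  have h2 := DirectSum.toSemiring_of (fun i => (pf 𝒜 ℓ i).toAddMonoidHom) (pf_one 𝒜 ℓ)
    (fun {_ _} x y => pf_mul 𝒜 ℓ hℓ x y) u ⟨x, hx⟩
  exact h2.trans (pf_apply 𝒜 ℓ u ⟨x, hx⟩)

theorem comp_proj (𝒜 : Λ → Submodule k R) [GradedAlgebra 𝒜] (ℓ : Λ →+ ℤ)
    (hℓ : ∀ u, ∀ x ∈ 𝒜 u, x ≠ 0 → 0 ≤ ℓ u) (x : R) (u : Λ) :
    ((decompose 𝒜 (proj 𝒜 ℓ hℓ x) u : 𝒜 u) : R) =
      if ℓ u = 0 then ((decompose 𝒜 x u : 𝒜 u) : R) else 0 := by
  classical
  have hx : x = ∑ v ∈ (decompose 𝒜 x).support, ((decompose 𝒜 x v : 𝒜 v) : R) :=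
    (sum_support_decompose 𝒜 x).symm
  have h1 : proj 𝒜 ℓ hℓ x = ∑ v ∈ (decompose 𝒜 x).support,
      (if ℓ v = 0 then ((decompose 𝒜 x v : 𝒜 v) : R) else 0) := by
    conv_lhs => rw [hx]
    rw [map_sum]
    exact Finset.sum_congr rfl (fun v _ => proj_of_mem 𝒜 ℓ hℓ (decompose 𝒜 x v).2)
  rw [h1, comp_sum]
  have h2 : ∀ v ∈ (decompose 𝒜 x).support,
      ((decompose 𝒜 (if ℓ v = 0 then ((decompose 𝒜 x v : 𝒜 v) : R) else 0) u : 𝒜 u) : R) =
        if v = u then (if ℓ u = 0 then ((decompose 𝒜 x u : 𝒜 u) : R) else 0) else 0 := by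
    intro v _
    by_cases hv : ℓ v = 0
    · rw [if_pos hv, comp_of_mem 𝒜 (decompose 𝒜 x v).2 u]
      by_cases hvu : v = u
      · subst hvu; rw [if_pos rfl, if_pos rfl, if_pos hv]
      · rw [if_neg hvu, if_neg hvu]
    · rw [if_neg hv]
      by_cases hvu : v = u
      · subst hvu; rw [if_pos rfl, if_neg hv]; simp
      · rw [if_neg hvu]; simp
  rw [Finset.sum_congr rfl h2, Finset.sum_ite_eq']
  by_cases h3 : u ∈ (decompose 𝒜 x).support
  · rw [if_pos h3]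
  · rw [if_neg h3]
    have h4 : (decompose 𝒜 x u) = 0 := by
      simpa [DFinsupp.mem_support_toFun] using h3
    rw [h4]; simp

theorem inDeg_of_mem (𝒜 : Λ → Submodule k R) [GradedAlgebra 𝒜] (deg : Λ →+ ℤ) {u : Λ} {x : R}
    (hx : x ∈ 𝒜 u) : InDeg 𝒜 deg (deg u) x := by
  intro v hv
  rw [comp_of_mem 𝒜 hx v] at hv
  by_cases h : u = v
  · rw [h]
  · rw [if_neg h] at hv; exact absurd rfl hv

theorem inDeg_sum (𝒜 : Λ → Submodule k R) [GradedAlgebra 𝒜] (deg : Λ →+ ℤ) {ι : Type} (s : Finset ι)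
    (f : ι → R) (n : ℤ) (h : ∀ i ∈ s, InDeg 𝒜 deg n (f i)) : InDeg 𝒜 deg n (∑ i ∈ s, f i) := by
  intro v hv
  rw [comp_sum] at hv
  obtain ⟨i, hi, hne⟩ := Finset.exists_ne_zero_of_sum_ne_zero hv
  exact h i hi v hne

/-- Let `R` be a normal domain graded by the character group `Λ` of a torus, with `ℕ`-grading given by
`deg`, let the finite group `G` act on `R` normalising the torus, and `S = R^G`. Assume `hL`: at each
torus-stable point `P` of `Proj R` there are elements of `S` of two consecutive degrees outside `P`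
(true when `S` is the section ring of an ample invertible sheaf). If the torus has an isolated extremal
fixed point (`ℓ`, `hpt`, `hiso`), then `S_1 ≠ 0`. -/
theorem result (k R Λ : Type) [Field k] [CharZero k] [CommRing R] [IsDomain R]
    [IsIntegrallyClosed R] [Algebra k R] [AddCommGroup Λ] [DecidableEq Λ]
    (𝒜 : Λ → Submodule k R) [GradedAlgebra 𝒜]
    (deg : Λ →+ ℤ) (hdeg : ∀ u, ∀ x ∈ 𝒜 u, x ≠ 0 → 0 ≤ deg u)
    (G : Type) [Group G] [Finite G] (φ : G →* (R ≃ₐ[k] R)) (α : G → (Λ ≃+ Λ))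
    (hφ : ∀ g u, ∀ x ∈ 𝒜 u, φ g x ∈ 𝒜 (α g u)) (hα : ∀ g u, deg (α g u) = deg u)
    (hL : ∀ P : Ideal R, P.IsPrime → P.IsHomogeneous 𝒜 →
      (∃ u, 0 < deg u ∧ ∃ x ∈ 𝒜 u, x ∉ P) →
      ∃ (n : ℤ) (a b : R), InvDeg 𝒜 deg φ n a ∧ InvDeg 𝒜 deg φ (n + 1) b ∧ a ∉ P ∧ b ∉ P)
    (ℓ : Λ →+ ℤ) (hℓ : ∀ u, ∀ x ∈ 𝒜 u, x ≠ 0 → 0 ≤ ℓ u)
    (hpt : ∃ u, ℓ u = 0 ∧ 0 < deg u ∧ ∃ x ∈ 𝒜 u, x ≠ 0)
    (hiso : ∀ u v, ℓ u = 0 → ℓ v = 0 → deg u = deg v → ∀ x ∈ 𝒜 u, ∀ y ∈ 𝒜 v, x ≠ 0 →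
      ∃ c : k, y = c • x) :
    ∃ z : R, z ≠ 0 ∧ InvDeg 𝒜 deg φ 1 z := by
  classical
  have _ := Fintype.ofFinite G
  set π := proj 𝒜 ℓ hℓ with hπ
  set P : Ideal R := RingHom.ker (π : R →+* R) with hP
  have memP : ∀ x, x ∈ P ↔ π x = 0 := fun x => RingHom.mem_ker
  have hPprime : P.IsPrime := RingHom.ker_isPrime _
  have hPhom : P.IsHomogeneous 𝒜 := by
    intro i x hx
    rw [memP] at hx ⊢
    rw [proj_of_mem 𝒜 ℓ hℓ (decompose 𝒜 x i).2, ← comp_proj 𝒜 ℓ hℓ x i, ← hπ, hx]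
    simp
  have hPne : ∃ u, 0 < deg u ∧ ∃ x ∈ 𝒜 u, x ∉ P := by
    obtain ⟨u, h1, h2, x, hx, hx0⟩ := hpt
    refine ⟨u, h2, x, hx, ?_⟩
    rw [memP, proj_of_mem 𝒜 ℓ hℓ hx, if_pos h1]
    exact hx0
  obtain ⟨n, a, b, ⟨ha, hga⟩, ⟨hb, hgb⟩, haP, hbP⟩ := hL P hPprime hPhom hPne
  -- nonzero components of weight zero
  have hex : ∀ x, x ∉ P → ∃ u, ℓ u = 0 ∧ ((decompose 𝒜 x u : 𝒜 u) : R) ≠ 0 := by
    intro x hx
    by_contra hcon
    push_neg at hcon
    apply hx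
    rw [memP]
    rw [← sum_support_decompose 𝒜 (π x)]
    apply Finset.sum_eq_zero
    intro u _
    rw [comp_proj 𝒜 ℓ hℓ x u]
    split_ifs with h
    · exact hcon u h
    · rfl
  obtain ⟨u, hu0, hau⟩ := hex a haP
  obtain ⟨w, hw0, hbw⟩ := hex b hbP
  have hun : deg u = n := ha u hau
  have hwn : deg w = n + 1 := hb w hbw
  set A : R := ((decompose 𝒜 a u : 𝒜 u) : R) with hA
  set B : R := ((decompose 𝒜 b w : 𝒜 w) : R) with hB
  have hAm : A ∈ 𝒜 u := (decompose 𝒜 a u).2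
  have hBm : B ∈ 𝒜 w := (decompose 𝒜 b w).2
  have hn0 : 0 ≤ n := by rw [← hun]; exact hdeg u A hAm hau
  by_cases hn : n = 0
  · refine ⟨b, fun h => hbP (by rw [h]; exact P.zero_mem), ?_, hgb⟩
    rw [hn, zero_add] at hb
    exact hb
  obtain ⟨m, rfl⟩ : ∃ m : ℕ, n = m := ⟨n.toNat, (Int.toNat_of_nonneg hn0).symm⟩
  have hm : 0 < m := by
    rcases Nat.eq_zero_or_pos m with h | h
    · exact absurd (by rw [h]; rfl) hn
    · exact h
  -- powers
  have hBpow : B ^ m ∈ 𝒜 (m • w) := SetLike.pow_mem_graded m hBm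
  have hApow : A ^ (m + 1) ∈ 𝒜 ((m + 1) • u) := SetLike.pow_mem_graded (m + 1) hAm
  obtain ⟨c, hc⟩ := hiso ((m + 1) • u) (m • w) (by rw [map_nsmul, hu0, smul_zero])
    (by rw [map_nsmul, hw0, smul_zero])
    (by rw [map_nsmul, map_nsmul, hun, hwn]; simp only [nsmul_eq_mul]; push_cast; ring)
    _ hApow _ hBpow (pow_ne_zero _ hau)
  -- the quotient
  obtain ⟨y, hy⟩ : ∃ y : R, A * y = B := by
    have hA0 : (algebraMap R (FractionRing R) A) ≠ 0 := by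
      rw [Ne, FaithfulSMul.algebraMap_eq_zero_iff]; exact hau
    have hint : IsIntegral R (algebraMap R (FractionRing R) B / algebraMap R (FractionRing R) A) := by
      refine ⟨Polynomial.X ^ m - Polynomial.C (c • A), Polynomial.monic_X_pow_sub_C _ hm.ne', ?_⟩
      rw [Polynomial.eval₂_sub, Polynomial.eval₂_X_pow, Polynomial.eval₂_C, div_pow, sub_eq_zero,
        div_eq_iff (pow_ne_zero _ hA0), ← map_pow, ← map_pow, ← map_mul, hc]
      congr 1
      rw [pow_succ', smul_mul_assoc]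
    obtain ⟨y, hy⟩ := IsIntegrallyClosed.isIntegral_iff.mp hint
    refine ⟨y, ?_⟩
    apply FaithfulSMul.algebraMap_injective R (FractionRing R)
    rw [map_mul, hy, mul_div_cancel₀ _ hA0]
  -- `y` is homogeneous
  set v : Λ := w - u with hv
  have huv : u + v = w := by rw [hv]; abel
  have hyv : A * ((decompose 𝒜 y v : 𝒜 v) : R) = B := by
    have h1 := DirectSum.coe_decompose_mul_add_of_left_mem 𝒜 (b := y) (i := u) (j := v) hAm
    rw [← h1, hy, huv]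
    exact decompose_of_mem_same 𝒜 hBm
  have hym : y ∈ 𝒜 v := by
    have h1 : y = ((decompose 𝒜 y v : 𝒜 v) : R) := mul_left_cancel₀ hau (hy.trans hyv.symm)
    rw [h1]; exact (decompose 𝒜 y v).2
  have hy0 : y ≠ 0 := by
    rintro rfl
    rw [mul_zero] at hy
    exact hbw hy.symm
  have hvℓ : ℓ v = 0 := by rw [hv, map_sub, hu0, hw0, sub_zero]
  have hvdeg : deg v = 1 := by rw [hv, map_sub, hun, hwn]; ring
  have hum : u = m • v := by
    have h1 : y ^ m ∈ 𝒜 (m • v) := SetLike.pow_mem_graded m hym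
    obtain ⟨c', hc'⟩ := hiso (m • v) u (by rw [map_nsmul, hvℓ, smul_zero]) hu0
      (by rw [map_nsmul, hvdeg, hun]; simp) _ h1 _ hAm (pow_ne_zero _ hy0)
    have h2 : A ∈ 𝒜 (m • v) := by rw [hc']; exact (𝒜 (m • v)).smul_mem _ h1
    exact eq_of_mem 𝒜 hAm h2 hau
  have hwm : w = (m + 1) • v := by
    rw [← huv, hum, succ_nsmul]
  -- elements fixing the weight fix `y`
  have hfix : ∀ g, α g v = v → φ g y = y := by
    intro g hg
    have h1 : α g u = u := by rw [hum, map_nsmul, hg]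
    have h2 : α g w = w := by rw [hwm, map_nsmul, hg]
    have h3 : φ g A = A := by
      have h4 := comp_map 𝒜 (φ g) (α g) (hφ g) a u
      rw [hga g, h1] at h4
      exact h4.symm
    have h5 : φ g B = B := by
      have h4 := comp_map 𝒜 (φ g) (α g) (hφ g) b w
      rw [hgb g, h2] at h4
      exact h4.symm
    have h6 : A * φ g y = A * y := by
      have h7 := congrArg (φ g) hy
      rw [map_mul, h3, h5] at h7
      rw [h7, hy]
    exact mul_left_cancel₀ hau h6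
  have h1v : α 1 v = v := by
    have h1 : φ 1 y = y := by rw [map_one]; rfl
    have h2 := hφ 1 v y hym
    rw [h1] at h2
    exact eq_of_mem 𝒜 h2 hym hy0
  refine ⟨∑ g, φ g y, ?_, ?_, ?_⟩
  · intro h0
    have h1 : ((decompose 𝒜 (∑ g, φ g y) v : 𝒜 v) : R) =
        ∑ g ∈ Finset.univ.filter (fun g => α g v = v), y := by
      rw [comp_sum, Finset.sum_filter]
      apply Finset.sum_congr rfl
      intro g _
      rw [comp_of_mem 𝒜 (hφ g v y hym) v]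
      split_ifs with h
      · exact hfix g h
      · rfl
    rw [h0, Finset.sum_const, decompose_zero] at h1
    have h2 : ((Finset.univ.filter (fun g => α g v = v)).card : R) * y = 0 := by
      rw [← nsmul_eq_mul, ← h1]; simp
    have hchar : CharZero R := charZero_of_injective_algebraMap (algebraMap k R).injective
    rcases mul_eq_zero.mp h2 with h3 | h3
    · have h4 : (Finset.univ.filter (fun g => α g v = v)).card = 0 := by exact_mod_cast h3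
      rw [Finset.card_eq_zero] at h4
      have h5 : (1 : G) ∈ Finset.univ.filter (fun g => α g v = v) := by simp [h1v]
      rw [h4] at h5
      simp at h5
    · exact hy0 h3
  · apply inDeg_sum
    intro g _
    have h1 := inDeg_of_mem 𝒜 deg (hφ g v y hym)
    rw [hα, hvdeg] at h1
    exact h1
  · intro h
    rw [map_sum]
    have h1 : ∀ g, φ h (φ g y) = φ (h * g) y := by
      intro g
      rw [map_mul]; rfl
    simp only [h1]
    exact Fintype.sum_equiv (Equiv.mulLeft h) _ _ (fun g => rfl)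

end Pool.Agent.Results.MP_954e53_ag.TorusFixedPoint
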